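import Pool.Agent.helper19.MX.SpecC

/-!
# Project mx (MP_a875de_ag), row BSB
-/

namespace MX

open Pool.Agent.helper53.AU AN
open scoped Classical Topology

theorem BSB (hQV1 : QV1_stmt) (hZER : ZER_stmt) (hBSN : BSN_stmt) : BSB_stmt := by
  intro p _ k F _ _ _ _ _ hF g hg n l hl hlt α hα τ S hS
  haveI : CharP F p := charP_of_injective_algebraMap (algebraMap k F).injective p
  have hp : 0 < p := (Fact.out : p.Prime).pos
  have hl1 : 1 ≤ l := by rw [hl]; exact Nat.one_le_pow _ _ hp
  have hl2 : 1 ≤ l ^ 2 := Nat.one_le_pow _ _ hl1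
  obtain ⟨Pa, Pt, a, s, t, hs, ht, h0, hG, hGne, hGord⟩ := hBSN p k F hF g hg n l hl hlt α hα τ
  set G : F := ∑ j, s j * α (t j) ^ l with hGdef
  have key : ∀ y ∈ S \ {Pa, Pt}, y.Ge 1 G := by
    intro y hy
    rw [Finset.mem_sdiff, Finset.mem_insert, Finset.mem_singleton, not_or] at hy
    obtain ⟨hyS, hya, hyt⟩ := hy
    have hterm : ∀ j, y.Ge 1 (s j ^ l * (α (t j) ^ (l ^ 2) - τ (t j))) := by
      intro j
      have h1 : y.Ge 0 (τ (t j)) := ht j y hyt
      obtain ⟨c, hc⟩ := hQV1 k F hF y (τ (t j)) h1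
      obtain ⟨c', hc', hcc⟩ := hα c
      have h2 : y.Ge 1 (τ (t j - algebraMap k F c)) := by
        rw [map_sub, AlgEquiv.commutes]; exact hc
      have h3 : y.Ge 1 (α (t j - algebraMap k F c)) := by
        rcases h2 with h2 | h2
        · left
          have h4 : t j - algebraMap k F c = 0 := (map_eq_zero τ).mp h2
          rw [h4, map_zero]
        · right
          rw [hS y hyS]
          exact h2
      rw [map_sub, hc'] at h3
      have h5 := h3.pow (l ^ 2)
      have h6 : (α (t j) - algebraMap k F c') ^ (l ^ 2)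
          = α (t j) ^ (l ^ 2) - algebraMap k F c := by
        have h7 : l ^ 2 = p ^ (n * 2) := by rw [hl, pow_mul]
        have h8 : (algebraMap k F c') ^ (l ^ 2) = algebraMap k F c := by
          rw [← map_pow, hcc]
        rw [← h8, h7, sub_pow_char_pow]
      rw [h6] at h5
      have h8 : y.Ge 1 (α (t j) ^ (l ^ 2) - algebraMap k F c) := by
        apply h5.mono
        rw [mul_one]
        exact_mod_cast hl2
      have h9 : y.Ge 1 (α (t j) ^ (l ^ 2) - τ (t j)) := by
        have h10 := h8.sub hc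
        have h11 : α (t j) ^ (l ^ 2) - algebraMap k F c - (τ (t j) - algebraMap k F c)
            = α (t j) ^ (l ^ 2) - τ (t j) := by ring
        rw [h11] at h10
        exact h10
      have h12 : y.Ge 0 (s j ^ l) := by
        have h13 := (hs j y hya).pow l
        rw [mul_zero] at h13
        exact h13
      have h14 := h12.mul h9
      rw [zero_add] at h14
      exact h14
    have hsum : y.Ge 1 (∑ j, s j ^ l * (α (t j) ^ (l ^ 2) - τ (t j))) :=
      Place.Ge.sum Finset.univ _ fun j _ => hterm j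
    have hGl : G ^ l = ∑ j, s j ^ l * (α (t j) ^ (l ^ 2) - τ (t j)) := by
      have h1 : G ^ l = ∑ j, (s j * α (t j) ^ l) ^ l := by
        rw [hGdef, hl]
        exact sum_pow_char_pow p n Finset.univ _
      have h2 : ∑ j, s j ^ l * (α (t j) ^ (l ^ 2) - τ (t j))
          = ∑ j, s j ^ l * α (t j) ^ (l ^ 2) - ∑ j, s j ^ l * τ (t j) := by
        rw [← Finset.sum_sub_distrib]
        exact Finset.sum_congr rfl fun j _ => by ring
      rw [h1, h2, h0, sub_zero]
      refine Finset.sum_congr rfl fun j _ => ?_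
      rw [mul_pow, ← pow_mul, sq]
    rw [← hGl] at hsum
    right
    have h3 := hsum.le (pow_ne_zero l hGne)
    rw [y.ord_pow hGne] at h3
    by_contra h4
    have h5 : y.ord G ≤ 0 := by omega
    have h6 : (l : ℤ) * y.ord G ≤ 0 := mul_nonpos_of_nonneg_of_nonpos (by positivity) h5
    omega
  have hzer := hZER k F hF Pa G ((l : ℤ) * (l + 2 * g) + l - 1) (S \ {Pa, Pt}) hG hGne hGord
    (by simp) key
  have hcard : S.card ≤ (S \ {Pa, Pt}).card + 2 := by
    have h1 : S.card ≤ (S \ {Pa, Pt}).card + ({Pa, Pt} : Finset (Place k F)).card := by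
      have h2 := Finset.card_le_card_sdiff_add_card (s := S) (t := {Pa, Pt})
      exact h2
    have h3 : ({Pa, Pt} : Finset (Place k F)).card ≤ 2 := Finset.card_le_two
    omega
  have hcard' : (S.card : ℤ) ≤ ((S \ {Pa, Pt}).card : ℤ) + 2 := by exact_mod_cast hcard
  nlinarith [hzer, hcard']

end MX
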